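import Pool.Agent.H502.NtAll
set_option autoImplicit false

/-!
# Every normal tiling of the plane by convex polygons has a normal dual tiling with convex tiles
-/

namespace Pool.Agent.Results.MP_1d464e_co.ConvexDual

open Pool.Agent.H502.Nt

/-- Every normal tiling of the Euclidean plane by convex polygons has a dual normal tiling all of
whose tiles are convex (and are convex polygons). -/
theorem result (T : Set (Set ℂ)) (hT : IsNormal T) (hc : ∀ A ∈ T, IsConvexPolygon A) :
    ∃ T' : Set (Set ℂ), IsNormal T' ∧ (∀ A ∈ T', Convex ℝ A ∧ IsConvexPolygon A) ∧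
      IsDual T T' := by
  obtain ⟨T', h1, h2, h3⟩ := main T hT hc
  refine ⟨T', h1, fun A hA => ⟨?_, h2 A hA⟩, h3⟩
  obtain ⟨s, rfl⟩ := h2 A hA
  exact convex_convexHull ℝ _

end Pool.Agent.Results.MP_1d464e_co.ConvexDual
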