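import Pool.Agent.Helper484.DT.P_dual_ct
import Pool.Agent.Helper484.DT.P_normal_of_ct
import Pool.Agent.Helper484.DT.P_ct_of_normal
import Pool.Agent.Helper484.DT.P_orient
import Pool.Agent.Helper484.DT.P_exists_good
import Pool.Agent.Helper484.DT.P_exists_harm

set_option autoImplicit false

/-!
# Normal tilings of the plane with convex tiles have normal duals with convex tiles

`F` is a normal tiling of the plane all of whose tiles are convex. Then there is a normal tiling
`G`, dual to `F`, all of whose tiles are convex polygons.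
-/

namespace Pool.Agent.Results.MP_1d464e_co.DualOfConvex

open Pool.Agent.Helper484.DT Set Metric

theorem result (F : Set (Set ℂ)) (hF : NormalTiling F) (hc : ∀ a ∈ F, Convex ℝ a) :
    ∃ G : Set (Set ℂ), NormalTiling G ∧ (∀ a ∈ G, Convex ℝ a) ∧
      (∀ a ∈ G, ∃ S : Set ℂ, S.Finite ∧ a = convexHull ℝ S) ∧ IsDual F G := by
  obtain ⟨u, U, h⟩ := ct_of_normal F hF hc
  have hfin : ∀ i : F, {j : F | Adj (fun a : F => (a : Set ℂ)) i j}.Finite := by
    intro i
    obtain ⟨x, hx⟩ := h.ball i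
    obtain ⟨K, hK⟩ := locfin h U
    refine (hK x).1.subset ?_
    intro j hj
    obtain ⟨z, hz⟩ := hj.2.nonempty
    refine ⟨z, hz.2, ?_⟩
    rw [mem_closedBall]
    exact h.diam i z hz.1 x (hx (mem_closedBall_self h.upos.le))
  have hN : ∀ i j : F, j ∈ (hfin i).toFinset ↔ Adj (fun a : F => (a : Set ℂ)) i j := by
    intro i j
    simp
  obtain ⟨p, C, l0, h0, hC, hh⟩ := exists_harm h (fun i => (hfin i).toFinset) hN
  obtain ⟨q, C', δ, α, hq⟩ := exists_good h (fun i => (hfin i).toFinset) hN p C l0 hC h0 hh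
  obtain ⟨σ, ho⟩ := orient h hq
  have hct := q_ct h hq ho
  have hr : range (fun a : F => (a : Set ℂ)) = F := Subtype.range_coe
  refine ⟨range fun v : {v : ℂ // IsV (fun a : F => (a : Set ℂ)) v} =>
    Qd (fun a : F => (a : Set ℂ)) q v, normal_of_ct hct, ?_, ?_, ?_⟩
  · rintro a ⟨v, rfl⟩
    exact convex_convexHull ℝ _
  · rintro a ⟨v, rfl⟩
    refine ⟨_, ?_, rfl⟩
    obtain ⟨K, hK⟩ := locfin h 0
    refine Finite.image _ ((hK (v : ℂ)).1.subset ?_)
    intro j hj
    exact ⟨v, hj, mem_closedBall_self le_rfl⟩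
  · have hd := dual_ct h hq ho
    rwa [hr] at hd

end Pool.Agent.Results.MP_1d464e_co.DualOfConvex
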